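import Mathlib
import Pool.Agent.H26.Newton

namespace Pool.Agent.Results.MP_a5d893_al.NewtonFailsReal

open Matrix Finset

/-- Index sequences are strictly increasing maps `Fin k → Fin n`; the minor `A[f, g]`. -/
noncomputable def minor {n k : ℕ} (A : Matrix (Fin n) (Fin n) ℝ) (f g : Fin k → Fin n) : ℝ :=
  (A.submatrix f g).det

def PMatrix {n : ℕ} (A : Matrix (Fin n) (Fin n) ℝ) : Prop :=
  ∀ (k : ℕ) (f : Fin k → Fin n), StrictMono f → 0 < minor A f f

def WeaklySignSymm {n : ℕ} (A : Matrix (Fin n) (Fin n) ℝ) : Prop :=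
  ∀ (k : ℕ) (f g : Fin k → Fin n), StrictMono f → StrictMono g →
    (image f univ ∩ image g univ).card + 1 = k → 0 ≤ minor A f g * minor A g f

/-- the least real eigenvalue (`⊤` if there is none) -/
noncomputable def ell {k : ℕ} (B : Matrix (Fin k) (Fin k) ℝ) : EReal :=
  sInf ((fun x : ℝ => (x : EReal)) '' {x : ℝ | (x : ℂ) ∈ spectrum ℂ (B.map Complex.ofReal)})

def TauMatrix {n : ℕ} (A : Matrix (Fin n) (Fin n) ℝ) : Prop :=
  (∀ (k m : ℕ) (f : Fin k → Fin n) (g : Fin m → Fin n), StrictMono f → StrictMono g → 0 < m →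
    Set.range g ⊆ Set.range f →
    ell (A.submatrix f f) ≤ ell (A.submatrix g g) ∧ ell (A.submatrix g g) < ⊤) ∧ 0 ≤ ell A

open Classical in
/-- normalised sum of the principal minors of order `j` -/
noncomputable def c {n : ℕ} (A : Matrix (Fin n) (Fin n) ℝ) (j : ℕ) : ℝ :=
  (n.choose j : ℝ)⁻¹ * ∑ f ∈ univ.filter fun f : Fin j → Fin n => StrictMono f, minor A f f

noncomputable def B : Matrix (Fin 4) (Fin 4) ℝ := (H26.Newton.M true 4).map (↑)

theorem B_map : B.map Complex.ofReal = H26.Newton.A true 4 := by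
  ext i j; simp [B, H26.Newton.A]

theorem minor_cast {k : ℕ} (f g : Fin k → Fin 4) :
    ((minor B f g : ℝ) : ℂ) = H26.Newton.minor (H26.Newton.A true 4) f g := by
  rw [minor, H26.Newton.minor, ← B_map]
  exact RingHom.map_det Complex.ofRealHom (B.submatrix f g)

theorem c_cast (j : ℕ) : ((c B j : ℝ) : ℂ) = H26.Newton.c (H26.Newton.A true 4) j := by
  rw [c, H26.Newton.c]
  push_cast
  simp only [minor_cast]

open ComplexOrder in
/-- A real GKK tau-matrix violating one of Newton's inequalities. -/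
theorem result : ∃ (n : ℕ) (A : Matrix (Fin n) (Fin n) ℝ), PMatrix A ∧
    WeaklySignSymm A ∧ TauMatrix A ∧
    ∃ j, 1 ≤ j ∧ j ≤ n - 1 ∧ c A j ^ 2 < c A (j - 1) * c A (j + 1) := by
  obtain ⟨-, h1, h2, h3, h4⟩ := H26.Newton.cex
  refine ⟨4, B, fun k f hf => ?_, fun k f g hf hg h => ?_, ⟨fun k m f g hf hg hm h => ?_, ?_⟩, 2,
    by norm_num, by norm_num, ?_⟩
  · rcases Nat.eq_zero_or_pos k with rfl | hk
    · simp [minor]
    · have := h1 k f hk hf
      rw [← minor_cast] at this
      exact_mod_cast this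
  · have := h2 k f g hf hg h
    rw [← minor_cast, ← minor_cast] at this
    exact_mod_cast this
  · have := h3.1 k m f g hf hg hm h
    rw [← B_map] at this
    exact this
  · have := h3.2
    rw [← B_map] at this
    exact this
  · rw [← c_cast, ← c_cast, ← c_cast] at h4
    exact_mod_cast h4

end Pool.Agent.Results.MP_a5d893_al.NewtonFailsReal
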